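import Pool.Agent.Work.MP_7406cc_gt.UT.All

/-!
Minimal abelian groups of weight at least `κ` are universal test spaces for the compact Hausdorff
spaces of weight at most `κ`, for every cardinal `κ` of uncountable cofinality.
-/

open Filter Topology Set

namespace Pool.Agent.Results.MP_7406cc_gt.CompactImages

/-- Let `κ` be a cardinal of uncountable cofinality, `G` a minimal Hausdorff abelian group of weight
at least `κ` and `M` a compact Hausdorff space of weight at most `κ`. Then `M` is a hereditarily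
quotient image of a closed subspace `E` of `G`; in particular `M` is pseudoradial if `G` is. -/
theorem result (κ : Cardinal.{0}) (hκ : Cardinal.aleph0 < κ.ord.cof)
    (G : Type) [CommGroup G] [τ : TopologicalSpace G] [IsTopologicalGroup G] [T2Space G]
    (hmin : ∀ t : TopologicalSpace G, τ ≤ t → @IsTopologicalGroup G t _ → @T2Space G t → t = τ)
    (hG : ∀ B : Set (Set G), TopologicalSpace.IsTopologicalBasis B → κ ≤ Cardinal.mk B)
    (M : Type) [TopologicalSpace M] [CompactSpace M] [T2Space M]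
    (hM : ∃ B : Set (Set M), TopologicalSpace.IsTopologicalBasis B ∧ Cardinal.mk B ≤ κ) :
    (∃ (E : Set G) (t : E → M), IsClosed E ∧ Continuous t ∧
      ∀ (A : Set M) (y : M), y ∈ closure A → ∃ x : E, t x = y ∧ x ∈ closure (t ⁻¹' A)) ∧
    ((∀ A : Set G, ¬ IsClosed A →
      ∃ (ι : Type) (_ : LinearOrder ι), WellFoundedLT ι ∧ Nonempty ι ∧
        ∃ (x : ι → G) (p : G), (∀ i, x i ∈ A) ∧ p ∉ A ∧ Tendsto x atTop (𝓝 p)) →
      ∀ A : Set M, ¬ IsClosed A →
        ∃ (ι : Type) (_ : LinearOrder ι), WellFoundedLT ι ∧ Nonempty ι ∧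
          ∃ (x : ι → M) (p : M), (∀ i, x i ∈ A) ∧ p ∉ A ∧ Tendsto x atTop (𝓝 p)) := by
  have h : Work.MP_7406cc_gt.UT.HQ G M := (Work.MP_7406cc_gt.UT.all_UT.1 κ hκ).1 G hmin hG M hM
  exact ⟨h, fun hpr => Work.MP_7406cc_gt.UT.pr_Pr G M h hpr⟩

end Pool.Agent.Results.MP_7406cc_gt.CompactImages
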