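import Mathlib
import Pool.Agent.Work.MP_7406cc_gt.Alg
import Pool.Agent.Work.MP_7406cc_gt.Radial
import Pool.Agent.Work.MP_7406cc_gt.Essential
import Pool.Agent.Work.MP_7406cc_gt.Converse
import Pool.Agent.Work.MP_7406cc_gt.PS.All

/-!
Pseudoradial minimal abelian groups are metrizable if and only if the splitting number is the
first uncountable cardinal. No precompactness is assumed: the theorem of Prodanov and Stoyanov
(minimal abelian groups are precompact) is proved in `Pool.Agent.Work.MP_7406cc_gt.PS`.
-/

namespace Pool.Agent.Results.MP_7406cc_gt.MinimalGroups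

/-- Every pseudoradial minimal abelian group is metrizable if and only if there is a
splitting family of at most `ℵ₁` sets of natural numbers. -/
theorem result :
    (∀ (G : Type) [CommGroup G] [τ : TopologicalSpace G] [IsTopologicalGroup G] [T2Space G],
      (∀ t : TopologicalSpace G, τ ≤ t → @IsTopologicalGroup G t _ → @T2Space G t → t = τ) →
      (∀ A : Set G, ¬ IsClosed A →
        ∃ (ι : Type) (_ : LinearOrder ι), WellFoundedLT ι ∧ Nonempty ι ∧
          ∃ (x : ι → G) (p : G), (∀ i, x i ∈ A) ∧ p ∉ A ∧
            Filter.Tendsto x Filter.atTop (nhds p)) →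
      TopologicalSpace.MetrizableSpace G) ↔
    ∃ S : Set (Set ℕ), Cardinal.mk S ≤ Cardinal.aleph 1 ∧
      ∀ A : Set ℕ, A.Infinite → ∃ s ∈ S, (A ∩ s).Infinite ∧ (A \ s).Infinite := by
  constructor
  · intro H
    apply Work.MP_7406cc_gt.Converse.split_of_metrizable
      Work.MP_7406cc_gt.Radial.exists_pseudoradial Work.MP_7406cc_gt.Radial.not_metrizable
    intro G _ _ _ _ _ hmin hpr
    exact H G hmin hpr
  · rintro ⟨S, hS, hsplit⟩ G _ _ _ _ hmin hpr
    exact Work.MP_7406cc_gt.Essential.metrizable_of_split
      Work.MP_7406cc_gt.Alg.exists_surjective_finsupp S hS hsplit G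
      (Work.MP_7406cc_gt.PS.precompact_of_minimal Work.MP_7406cc_gt.PS.all_PS G hmin) hmin hpr

end Pool.Agent.Results.MP_7406cc_gt.MinimalGroups
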