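import Mathlib
import Pool.Agent.Work.MP_7406cc_gt.W.Weight

/-!
The weight of minimal abelian groups in which the countable non-closed sets contain transfinite
sequences converging to points outside, for every cardinal of uncountable cofinality.
-/

namespace Pool.Agent.Results.MP_7406cc_gt.WeightBound

/-- Let `κ` be a cardinal of uncountable cofinality. Every minimal abelian group in which each
countable non-closed set contains a transfinite sequence converging to a point outside it has a
base of fewer than `κ` sets if and only if there is a splitting family of at most `κ` sets of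
natural numbers. -/
theorem result (κ : Cardinal.{0}) (hκ : Cardinal.aleph0 < κ.ord.cof) :
    (∀ (G : Type) [CommGroup G] [τ : TopologicalSpace G] [IsTopologicalGroup G] [T2Space G],
      (∀ t : TopologicalSpace G, τ ≤ t → @IsTopologicalGroup G t _ → @T2Space G t → t = τ) →
      (∀ A : Set G, A.Countable → ¬ IsClosed A →
        ∃ (ι : Type) (_ : LinearOrder ι), WellFoundedLT ι ∧ Nonempty ι ∧
          ∃ (x : ι → G) (p : G), (∀ i, x i ∈ A) ∧ p ∉ A ∧
            Filter.Tendsto x Filter.atTop (nhds p)) →
      ∃ B : Set (Set G), Cardinal.mk B < κ ∧ TopologicalSpace.IsTopologicalBasis B) ↔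
    ∃ S : Set (Set ℕ), Cardinal.mk S ≤ κ ∧
      ∀ A : Set ℕ, A.Infinite → ∃ s ∈ S, (A ∩ s).Infinite ∧ (A \ s).Infinite :=
  Work.MP_7406cc_gt.W.weight_iff κ hκ

end Pool.Agent.Results.MP_7406cc_gt.WeightBound
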